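import Mathlib

/-!
# Definitions for problem MP_eb7e96_an

Metric boundary, closed annuli, the ALLC condition, relative distance, boundary components.
-/

set_option autoImplicit false

open Set Metric UniformSpace

open scoped ENNReal

namespace Pool.Agent.ALLC

/-- The metric boundary `∂X = X̄ ∖ X` of a metric space `X`, as a subset of its
completion `X̄` (Mathlib's `UniformSpace.Completion X`, with its metric). -/
def metricBoundary (X : Type) [MetricSpace X] : Set (Completion X) :=
  (Set.range ((↑) : X → Completion X))ᶜ

/-- The closed annulus `A(a,r,R) = {z ∈ X : r ≤ d(a,z) ≤ R}`. -/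
def annulus {X : Type} [MetricSpace X] (a : X) (r R : ℝ) : Set X :=
  {z | r ≤ dist a z ∧ dist a z ≤ R}

/-- `X` is `lam`-ALLC: for all `a ∈ X` and `0 < r < R`, any two points of `A(a,r,R)` lie in a
continuum (a compact connected set) contained in `A(a, r/lam, lam R)`. -/
def IsALLC (X : Type) [MetricSpace X] (lam : ℝ) : Prop :=
  ∀ (a : X) (r R : ℝ), 0 < r → r < R → ∀ p ∈ annulus a r R, ∀ q ∈ annulus a r R,
    ∃ K : Set X, IsCompact K ∧ IsConnected K ∧ p ∈ K ∧ q ∈ K ∧ K ⊆ annulus a (r / lam) (lam * R)

/-- `X` is homeomorphic to a domain (a nonempty connected open subset) of the sphere `S²`,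
the unit sphere of Euclidean `3`-space. -/
def HomeoSphereDomain (X : Type) [MetricSpace X] : Prop :=
  ∃ U : Set (Metric.sphere (0 : EuclideanSpace ℝ (Fin 3)) 1),
    IsOpen U ∧ IsConnected U ∧ Nonempty (X ≃ₜ U)

/-- `E` is a non-trivial component of the metric boundary `∂X`: a connected component of `∂X`
having more than one point. -/
def IsNontrivialBoundaryComponent {X : Type} [MetricSpace X] (E : Set (Completion X)) : Prop :=
  E.Nontrivial ∧ ∃ x ∈ metricBoundary X, E = connectedComponentIn (metricBoundary X) x

/-- The relative distance `Δ(E,F) = dist(E,F) / min {diam E, diam F}`, with values in `[0,∞]`. -/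
noncomputable def relDist {Y : Type} [MetricSpace Y] (E F : Set Y) : ℝ≥0∞ :=
  (⨅ x ∈ E, ⨅ y ∈ F, edist x y) / min (Metric.ediam E) (Metric.ediam F)

end Pool.Agent.ALLC
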