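import Pool.Agent.Helper17_ALLC.Strip

/-!
# Path connections in annuli of the strip, in plane coordinates
-/

set_option autoImplicit false

open Set Metric UniformSpace Topology

namespace Pool.Agent.ALLC

/-- The annulus in plane coordinates. -/
def Ann (M s₀ y₀ r R : ℝ) : Set (ℝ × ℝ) :=
  {p | |p.2| < prof M p.1 ∧ r ≤ max (rho M s₀ p.1) |y₀ - p.2| ∧
    max (rho M s₀ p.1) |y₀ - p.2| ≤ R}

theorem joinedIn_graph {S : Set (ℝ × ℝ)} {g : ℝ → ℝ} (hg : Continuous g) {s t : ℝ}
    (h : ∀ u ∈ uIcc s t, (u, g u) ∈ S) : JoinedIn S (s, g s) (t, g t) := by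
  have h1 : IsPathConnected ((fun u => (u, g u)) '' uIcc s t) := by
    apply IsPathConnected.image
    · exact (convex_uIcc s t).isPathConnected nonempty_uIcc
    · fun_prop
  have h2 := h1.joinedIn (s, g s) ⟨s, left_mem_uIcc, rfl⟩ (t, g t) ⟨t, right_mem_uIcc, rfl⟩
  refine h2.mono ?_
  rintro _ ⟨u, hu, rfl⟩
  exact h u hu

theorem joinedIn_vert {S : Set (ℝ × ℝ)} {s y z : ℝ}
    (h : ∀ u ∈ uIcc y z, (s, u) ∈ S) : JoinedIn S (s, y) (s, z) := by
  have h1 : IsPathConnected ((fun u => (s, u)) '' uIcc y z) := by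
    apply IsPathConnected.image
    · exact (convex_uIcc y z).isPathConnected nonempty_uIcc
    · fun_prop
  have h2 := h1.joinedIn (s, y) ⟨y, left_mem_uIcc, rfl⟩ (s, z) ⟨z, right_mem_uIcc, rfl⟩
  refine h2.mono ?_
  rintro _ ⟨u, hu, rfl⟩
  exact h u hu

theorem abs_le_max_of_mem_uIcc {c u y z B : ℝ} (hu : u ∈ uIcc y z) (hy : |c - y| ≤ B)
    (hz : |c - z| ≤ B) : |c - u| ≤ B := by
  rw [abs_le] at *
  rcases mem_uIcc.1 hu with h | h <;> constructor <;> linarith [h.1, h.2]

theorem abs_lt_of_mem_uIcc {u y z B : ℝ} (hu : u ∈ uIcc y z) (hy : |y| < B)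
    (hz : |z| < B) : |u| < B := by
  rw [abs_lt] at *
  rcases mem_uIcc.1 hu with h | h <;> constructor <;> linarith [h.1, h.2]

/-- monotonicity of `rho` away from the base point -/
theorem rho_mono_of_mem {M s₀ s t : ℝ} (h : t ∈ uIcc s₀ s) : rho M s₀ t ≤ rho M s₀ s := by
  unfold rho
  apply min_le_min
  · rcases mem_uIcc.1 h with h | h
    · rw [abs_sub_comm, abs_of_nonneg (by linarith), abs_sub_comm, abs_of_nonneg (by linarith)]
      linarith
    · rw [abs_of_nonneg (by linarith), abs_of_nonneg (by linarith)]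
      linarith
  · apply max_le (le_max_left _ _)
    rcases mem_uIcc.1 h with h | h
    · exact (prof_anti M h.1).trans (le_max_left _ _)
    · exact (prof_anti M h.1).trans (le_max_right _ _)

theorem rho_ball_ordConnected {M s₀ s t u R : ℝ} (hs : rho M s₀ s ≤ R) (ht : rho M s₀ t ≤ R)
    (h : u ∈ uIcc s t) : rho M s₀ u ≤ R := by
  have : u ∈ uIcc s₀ s ∨ u ∈ uIcc s₀ t := by
    rcases mem_uIcc.1 h with h | h <;> rcases le_total s₀ u with h' | h'
    · right; exact mem_uIcc.2 (Or.inl ⟨h', h.2⟩)
    · left; exact mem_uIcc.2 (Or.inr ⟨h.1, h'⟩)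
    · left; exact mem_uIcc.2 (Or.inl ⟨h', h.2⟩)
    · right; exact mem_uIcc.2 (Or.inr ⟨h.1, h'⟩)
  rcases this with h | h
  · exact (rho_mono_of_mem h).trans hs
  · exact (rho_mono_of_mem h).trans ht

theorem prof_ge_min_of_mem {M s t u : ℝ} {c : ℝ} (h : u ∈ uIcc s t) (hs : c ≤ prof M s)
    (ht : c ≤ prof M t) : c ≤ prof M u := by
  rcases mem_uIcc.1 h with h | h
  · exact ht.trans (prof_anti M h.2)
  · exact hs.trans (prof_anti M h.2)

/-- Case of a large inner radius. -/
theorem joined_caseA {M s₀ y₀ r R : ℝ} (ha : |y₀| < prof M s₀) (hr : 0 < r) (hrR : r < R)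
    (hW : 4 * prof M s₀ ≤ r) {p q : ℝ × ℝ} (hp : p ∈ Ann M s₀ y₀ r R)
    (hq : q ∈ Ann M s₀ y₀ r R) : JoinedIn (Ann M s₀ y₀ (r / 12) R) p q := by
  have hWpos := prof_pos M s₀
  rw [abs_lt] at ha
  -- width at points of the annulus
  have wide : ∀ z ∈ Ann M s₀ y₀ r R, 3 * r / 4 ≤ prof M z.1 := by
    rintro ⟨s, y⟩ ⟨h1, h2, h3⟩
    simp only at h1 h2 h3 ⊢
    rw [abs_lt] at h1
    rcases le_max_iff.1 h2 with h | h
    · have := h.trans (rho_le_max M s₀ s)
      rcases le_max_iff.1 this with h' | h' <;> linarith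
    · rcases le_abs.1 h with h' | h' <;> linarith
  -- any wide position is far from the base point
  have far : ∀ s, 3 * r / 4 ≤ prof M s → r / 12 ≤ rho M s₀ s := by
    intro s hs
    unfold rho
    have := prof_lip M s s₀
    rw [abs_sub_comm] at this
    apply le_min
    · linarith
    · exact le_max_of_le_right (by linarith)
  have step : ∀ z ∈ Ann M s₀ y₀ r R, JoinedIn (Ann M s₀ y₀ (r / 12) R) z (z.1, 0) := by
    rintro ⟨s, y⟩ hz
    have hw := wide _ hz
    obtain ⟨h1, h2, h3⟩ := hz
    simp only at h1 h2 h3 hw ⊢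
    apply joinedIn_vert
    intro u hu
    refine ⟨?_, ?_, ?_⟩
    · exact abs_lt_of_mem_uIcc hu h1 (by simpa using prof_pos M s)
    · exact le_max_of_le_left (far s hw)
    · apply max_le ((le_max_left _ _).trans h3)
      refine abs_le_max_of_mem_uIcc hu ((le_max_right _ _).trans h3) ?_
      rw [sub_zero, abs_le]
      constructor <;> linarith
  have mid : JoinedIn (Ann M s₀ y₀ (r / 12) R) (p.1, 0) (q.1, 0) := by
    have hwp := wide _ hp
    have hwq := wide _ hq
    have := joinedIn_graph (S := Ann M s₀ y₀ (r / 12) R) (g := fun _ => (0:ℝ)) continuous_const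
      (s := p.1) (t := q.1) ?_
    · exact this
    intro u hu
    have hwu := prof_ge_min_of_mem hu hwp hwq
    refine ⟨?_, ?_, ?_⟩
    · simpa using prof_pos M u
    · exact le_max_of_le_left (far u hwu)
    · apply max_le
      · exact rho_ball_ordConnected ((le_max_left _ _).trans hp.2.2)
          ((le_max_left _ _).trans hq.2.2) hu
      · simp only [sub_zero]
        rw [abs_le]
        constructor <;> linarith
  exact ((step p hp).trans mid).trans (step q hq).symm

/-- Case of a small inner radius. -/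
theorem joined_caseB {M s₀ y₀ r R : ℝ} (hy0 : 0 ≤ y₀) (ha : y₀ < prof M s₀) (hr : 0 < r)
    (hrR : r < R) (hW : r < 4 * prof M s₀) {p q : ℝ × ℝ} (hp : p ∈ Ann M s₀ y₀ r R)
    (hq : q ∈ Ann M s₀ y₀ r R) : JoinedIn (Ann M s₀ y₀ (r / 12) R) p q := by
  have hWpos := prof_pos M s₀
  set W := prof M s₀ with hWdef
  -- the road
  set g : ℝ → ℝ := fun t => max (y₀ - R) (-(prof M t) / 2) with hgdef
  have hgc : Continuous g := by
    have := continuous_prof M
    simp only [hgdef]
    fun_prop
  have g_ge1 : ∀ t, y₀ - R ≤ g t := fun t => le_max_left _ _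
  have g_ge2 : ∀ t, -(prof M t) / 2 ≤ g t := fun t => le_max_right _ _
  have g_strip : ∀ t, rho M s₀ t ≤ R → |g t| < prof M t := by
    intro t ht
    have ht0 := prof_pos M t
    rw [abs_lt]
    constructor
    · have := g_ge2 t
      linarith
    · apply max_lt _ (by linarith)
      unfold rho at ht
      rcases min_le_iff.1 ht with h | h
      · have := prof_lip M s₀ t
        linarith
      · have := (le_max_left _ _).trans h
        linarith
  have g_R : ∀ t, |y₀ - g t| ≤ R := by
    intro t
    have h1 := g_ge1 t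
    have : g t ≤ y₀ + R := max_le (by linarith) (by linarith [prof_pos M t])
    rw [abs_le]
    constructor <;> linarith
  have g_low : ∀ t, |s₀ - t| < r / 12 → g t ≤ y₀ - r / 12 := by
    intro t ht
    have := prof_lip M s₀ t
    apply max_le <;> linarith
  have rho_far : ∀ t, r / 12 ≤ |s₀ - t| → r / 12 ≤ rho M s₀ t := by
    intro t ht
    unfold rho
    exact le_min ht (le_max_of_le_left (by linarith))
  have g_mem : ∀ t, rho M s₀ t ≤ R → (t, g t) ∈ Ann M s₀ y₀ (r / 12) R := by
    intro t ht
    refine ⟨g_strip t ht, ?_, max_le ht (g_R t)⟩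
    rcases lt_or_ge |s₀ - t| (r / 12) with h | h
    · have := g_low t h
      apply le_max_of_le_right
      exact le_abs.2 (Or.inl (by simp only; linarith))
    · exact le_max_of_le_left (rho_far t h)
  -- vertical descent when horizontally far
  have vert_far : ∀ s y, |y| < prof M s → rho M s₀ s ≤ R → |y₀ - y| ≤ R → r / 12 ≤ |s₀ - s| →
      JoinedIn (Ann M s₀ y₀ (r / 12) R) (s, y) (s, g s) := by
    intro s y h1 h2 h3 h4
    apply joinedIn_vert
    intro u hu
    refine ⟨abs_lt_of_mem_uIcc hu h1 (g_strip s h2), ?_, ?_⟩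
    · exact le_max_of_le_left (rho_far s h4)
    · exact max_le h2 (abs_le_max_of_mem_uIcc hu h3 (g_R s))
  -- every point of the annulus is joined to a point of the road
  have step : ∀ z ∈ Ann M s₀ y₀ r R, ∃ t, rho M s₀ t ≤ R ∧
      JoinedIn (Ann M s₀ y₀ (r / 12) R) z (t, g t) := by
    rintro ⟨s, y⟩ ⟨h1, h2, h3⟩
    simp only at h1 h2 h3
    have hs : rho M s₀ s ≤ R := (le_max_left _ _).trans h3
    have hy : |y₀ - y| ≤ R := (le_max_right _ _).trans h3
    rcases lt_or_ge |s₀ - s| (r / 12) with h | h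
    · have h4 : r ≤ |y₀ - y| := by
        rcases le_max_iff.1 h2 with h' | h'
        · have := rho_le_abs M s₀ s
          linarith
        · exact h'
      rcases le_abs.1 h4 with h5 | h5
      · -- below
        refine ⟨s, hs, ?_⟩
        apply joinedIn_vert
        intro u hu
        refine ⟨abs_lt_of_mem_uIcc hu h1 (g_strip s hs), ?_, ?_⟩
        · have h6 := g_low s h
          have h7 : u ≤ y₀ - r / 12 := by
            rcases mem_uIcc.1 hu with h' | h'
            · exact h'.2.trans h6
            · exact h'.2.trans (by linarith)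
          apply le_max_of_le_right
          exact le_abs.2 (Or.inl (by simp only; linarith))
        · exact max_le hs (abs_le_max_of_mem_uIcc hu hy (g_R s))
      · -- above: first move to the left
        have hypos : 0 < y := by linarith
        set s₁ := s₀ - r / 12 with hs1
        have hs1s : s₁ ≤ s := by
          have := le_abs_self (s₀ - s)
          linarith
        have hpath : JoinedIn (Ann M s₀ y₀ (r / 12) R) (s, y) (s₁, y) := by
          have := joinedIn_graph (S := Ann M s₀ y₀ (r / 12) R) (g := fun _ => y)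
            continuous_const (s := s) (t := s₁) ?_
          · exact this
          intro u hu
          rw [uIcc_of_ge hs1s] at hu
          have hus : |s₀ - u| ≤ r / 12 := by
            rw [abs_le]
            have := abs_lt.1 h
            constructor <;> linarith [hu.1, hu.2]
          refine ⟨?_, ?_, ?_⟩
          · exact lt_of_lt_of_le h1 (prof_anti M hu.2)
          · apply le_max_of_le_right
            simp only
            linarith
          · exact max_le ((rho_le_abs M s₀ u).trans (by linarith)) hy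
        have hy1 : |y| < prof M s₁ := lt_of_lt_of_le h1 (prof_anti M hs1s)
        have habs : |s₀ - s₁| = r / 12 := by
          rw [hs1, sub_sub_cancel, abs_of_pos (by linarith)]
        have hr1 : rho M s₀ s₁ ≤ R := (rho_le_abs M s₀ s₁).trans (by linarith)
        exact ⟨s₁, hr1, hpath.trans (vert_far s₁ y hy1 hr1 hy (by linarith))⟩
    · exact ⟨s, hs, vert_far s y h1 hs hy h⟩
  obtain ⟨t, ht, hpt⟩ := step p hp
  obtain ⟨t', ht', hqt⟩ := step q hq
  have road : JoinedIn (Ann M s₀ y₀ (r / 12) R) (t, g t) (t', g t') :=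
    joinedIn_graph hgc fun u hu => g_mem u (rho_ball_ordConnected ht ht' hu)
  exact (hpt.trans road).trans hqt.symm

/-- All cases. -/
theorem joined_all {M s₀ y₀ r R : ℝ} (ha : |y₀| < prof M s₀) (hr : 0 < r)
    (hrR : r < R) {p q : ℝ × ℝ} (hp : p ∈ Ann M s₀ y₀ r R)
    (hq : q ∈ Ann M s₀ y₀ r R) : JoinedIn (Ann M s₀ y₀ (r / 12) R) p q := by
  rcases le_or_gt (4 * prof M s₀) r with hW | hW
  · exact joined_caseA ha hr hrR hW hp hq
  rcases le_total 0 y₀ with hy | hy
  · exact joined_caseB hy (abs_lt.1 ha).2 hr hrR hW hp hq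
  · -- reflect
    have refl_mem : ∀ {r : ℝ} {z : ℝ × ℝ}, z ∈ Ann M s₀ y₀ r R → (z.1, -z.2) ∈ Ann M s₀ (-y₀) r R := by
      rintro r z ⟨h1, h2, h3⟩
      have : |(-y₀) - (-z.2)| = |y₀ - z.2| := by
        rw [← abs_neg]; congr 1; ring
      refine ⟨by simpa using h1, ?_, ?_⟩
      · simpa only [this] using h2
      · simpa only [this] using h3
    have := joined_caseB (M := M) (s₀ := s₀) (y₀ := -y₀) (r := r) (R := R) (by linarith)
      (by linarith [(abs_lt.1 ha).1]) hr hrR hW (refl_mem hp) (refl_mem hq)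
    have h2 := this.map (f := fun z : ℝ × ℝ => (z.1, -z.2)) (by fun_prop)
    simp only [neg_neg] at h2
    refine h2.mono ?_
    rintro _ ⟨z, ⟨h1, h2, h3⟩, rfl⟩
    have : |y₀ - (-z.2)| = |(-y₀) - z.2| := by
      rw [← abs_neg]; congr 1; ring
    refine ⟨by simpa using h1, ?_, ?_⟩
    · simpa only [this] using h2
    · simpa only [this] using h3

end Pool.Agent.ALLC
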