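import Pool.Agent.Helper17_ALLC.Plane

/-!
# The strip is ALLC, homeomorphic to a domain of the sphere; its boundary components
-/

set_option autoImplicit false

open Set Metric UniformSpace Topology

open scoped ENNReal

namespace Pool.Agent.ALLC

/-- plane coordinates of a point of the strip -/
def toPlane {M : ℝ} (p : Strip M) : ℝ × ℝ := (p.1.1.val, p.1.2)

theorem continuous_lineVal (M : ℝ) : Continuous (Line.val (M := M)) :=
  (Line.uniformContinuous_val M).continuous

theorem continuous_lineMk (M : ℝ) : Continuous (Line.mk M) :=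
  (Line.uniformContinuous_mk M).continuous

theorem continuous_toPlane (M : ℝ) : Continuous (toPlane (M := M)) := by
  unfold toPlane
  have := continuous_lineVal M
  fun_prop

theorem mem_annulus_iff {M : ℝ} (a z : Strip M) (r R : ℝ) :
    z ∈ annulus a r R ↔ toPlane z ∈ Ann M a.1.1.val a.1.2 r R := by
  unfold annulus Ann toPlane
  simp only [mem_setOf_eq, Strip.dist_eq]
  constructor
  · intro h; exact ⟨z.2, h⟩
  · intro h; exact h.2

theorem strip_isALLC (M : ℝ) : IsALLC (Strip M) 12 := by
  intro a r R hr hrR p hp q hq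
  rw [mem_annulus_iff] at hp hq
  have h := joined_all (M := M) (s₀ := a.1.1.val) (y₀ := a.1.2) a.2 hr hrR hp hq
  set γ := h.somePath with hγ
  have hmem : ∀ t, γ t ∈ Ann M a.1.1.val a.1.2 (r / 12) R := fun t => h.somePath_mem t
  let c : unitInterval → Strip M := fun t => ⟨(Line.mk M (γ t).1, (γ t).2), (hmem t).1⟩
  have hc : Continuous c := by
    apply Continuous.subtype_mk
    have h1 := continuous_lineMk M
    have h2 : Continuous γ := γ.continuous
    fun_prop
  refine ⟨range c, isCompact_range hc, isConnected_range hc, ⟨0, ?_⟩, ⟨1, ?_⟩, ?_⟩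
  · apply Subtype.ext
    have : γ 0 = toPlane p := γ.source
    change (Line.mk M (γ 0).1, (γ 0).2) = p.1
    rw [this]
    rfl
  · apply Subtype.ext
    have : γ 1 = toPlane q := γ.target
    change (Line.mk M (γ 1).1, (γ 1).2) = q.1
    rw [this]
    rfl
  · rintro _ ⟨t, rfl⟩
    rw [mem_annulus_iff]
    obtain ⟨h1, h2, h3⟩ := hmem t
    refine ⟨h1, h2, h3.trans ?_⟩
    linarith

/-- the region of the plane under the profile -/
theorem isOpenEmbedding_toPlane (M : ℝ) : IsOpenEmbedding (toPlane (M := M)) := by
  have h1 : IsOpen {p : Line M × ℝ | |p.2| < prof M p.1.val} := by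
    have := continuous_lineVal M
    have := continuous_prof M
    apply isOpen_lt <;> fun_prop
  have h2 : IsOpenEmbedding (Subtype.val : Strip M → Line M × ℝ) := h1.isOpenEmbedding_subtypeVal
  have h3 : IsOpenEmbedding (fun p : Line M × ℝ => (p.1.val, p.2)) :=
    ((Line.uequiv M).symm.toHomeomorph.prodCongr (Homeomorph.refl ℝ)).isOpenEmbedding
  exact h3.comp h2

instance (M : ℝ) : ConnectedSpace (Strip M) := by
  let φ : ℝ × Ioo (-1 : ℝ) 1 → Strip M := fun z => ⟨(Line.mk M z.1, prof M z.1 * z.2.1), by
    have h1 := prof_pos M z.1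
    have h2 := abs_lt.2 z.2.2
    change |prof M z.1 * z.2.1| < prof M z.1
    rw [abs_mul, abs_of_pos h1]
    nlinarith⟩
  have hφ : Continuous φ := by
    apply Continuous.subtype_mk
    have := continuous_lineMk M
    have := continuous_prof M
    fun_prop
  have hsurj : Function.Surjective φ := by
    rintro ⟨⟨s, y⟩, hy⟩
    have h1 := prof_pos M s.val
    have hy' : |y| < prof M s.val := hy
    refine ⟨(s.val, ⟨y / prof M s.val, ?_⟩), ?_⟩
    · rw [abs_lt] at hy'
      constructor
      · rw [lt_div_iff₀ h1]; linarith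
      · rw [div_lt_one h1]; linarith
    · apply Subtype.ext
      change (Line.mk M s.val, prof M s.val * (y / prof M s.val)) = (s, y)
      rw [mul_div_cancel₀ _ h1.ne']
      rfl
  haveI : ConnectedSpace (Ioo (-1 : ℝ) 1) :=
    isConnected_iff_connectedSpace.1 (isConnected_Ioo (by norm_num))
  exact hsurj.connectedSpace hφ

theorem exists_isOpenEmbedding_sphere :
    ∃ e : ℝ × ℝ → Metric.sphere (0 : EuclideanSpace ℝ (Fin 3)) 1, IsOpenEmbedding e := by
  haveI : Fact (Module.finrank ℝ (EuclideanSpace ℝ (Fin 3)) = 2 + 1) :=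
    ⟨by simp⟩
  let v : Metric.sphere (0 : EuclideanSpace ℝ (Fin 3)) 1 :=
    ⟨EuclideanSpace.single 0 1, by simp⟩
  have h1 : IsOpenEmbedding (stereographic' 2 v).symm :=
    OpenPartialHomeomorph.isOpenEmbedding _ (by simp)
  let g : ℝ × ℝ ≃ₜ EuclideanSpace ℝ (Fin 2) :=
    Homeomorph.finTwoArrow.symm.trans (EuclideanSpace.equiv (Fin 2) ℝ).symm.toHomeomorph
  exact ⟨_, h1.comp g.isOpenEmbedding⟩

theorem strip_homeoSphereDomain (M : ℝ) : HomeoSphereDomain (Strip M) := by
  obtain ⟨e, he⟩ := exists_isOpenEmbedding_sphere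
  have h := he.comp (isOpenEmbedding_toPlane M)
  refine ⟨range (e ∘ toPlane), h.isOpen_range, isConnected_range h.continuous,
    ⟨h.isEmbedding.toHomeomorph⟩⟩

/-! ### The boundary -/

theorem isometry_incl (M : ℝ) : Isometry (Subtype.val : Strip M → Line M × ℝ) :=
  isometry_subtype_coe

/-- The isometric extension to the completion. -/
noncomputable def Phi (M : ℝ) : Completion (Strip M) → Line M × ℝ :=
  Completion.extension (Subtype.val : Strip M → Line M × ℝ)

theorem Phi_isometry (M : ℝ) : Isometry (Phi M) := (isometry_incl M).completion_extension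

theorem Phi_coe {M : ℝ} (x : Strip M) : Phi M x = x.1 :=
  Completion.extension_coe (isometry_incl M).uniformContinuous x

theorem Phi_bound {M : ℝ} (z : Completion (Strip M)) :
    |(Phi M z).2| ≤ prof M (Phi M z).1.val := by
  refine Completion.induction_on z ?_ ?_
  · have h1 := (Phi_isometry M).continuous
    have := continuous_lineVal M
    have := continuous_prof M
    apply isClosed_le <;> fun_prop
  · intro x
    rw [Phi_coe]
    exact le_of_lt x.2

theorem mem_metricBoundary_iff {M : ℝ} (z : Completion (Strip M)) :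
    z ∈ metricBoundary (Strip M) ↔ |(Phi M z).2| = prof M (Phi M z).1.val := by
  constructor
  · intro hz
    by_contra hne
    have hlt := lt_of_le_of_ne (Phi_bound z) hne
    apply hz
    refine ⟨⟨Phi M z, hlt⟩, ?_⟩
    apply (Phi_isometry M).injective
    rw [Phi_coe]
  · rintro h ⟨x, rfl⟩
    rw [Phi_coe] at h
    exact absurd x.2 (by rw [h]; exact lt_irrefl _)

/-- Points of the closed strip are attained in the completion. -/
theorem exists_Phi_eq {M : ℝ} (s y : ℝ) (hy : |y| ≤ prof M s) :
    ∃ z, Phi M z = (Line.mk M s, y) := by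
  have hcl : IsClosed (range (Phi M)) := (Phi_isometry M).isClosedEmbedding.isClosed_range
  have : (Line.mk M s, y) ∈ closure (range (Phi M)) := by
    rw [Metric.mem_closure_range_iff]
    intro ε hε
    -- use the point `(s, (1-t) y)`
    have hp := prof_pos M s
    set t : ℝ := min (ε / (2 * prof M s)) (1 / 2) with ht
    have ht0 : 0 < t := lt_min (by positivity) (by norm_num)
    have ht1 : t ≤ 1 / 2 := min_le_right _ _
    have ht2 : t ≤ ε / (2 * prof M s) := min_le_left _ _
    have hmem : |(1 - t) * y| < prof M s := by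
      rw [abs_mul, abs_of_pos (by linarith : (0:ℝ) < 1 - t)]
      nlinarith [abs_nonneg y]
    refine ⟨((⟨(Line.mk M s, (1 - t) * y), hmem⟩ : Strip M) : Completion (Strip M)), ?_⟩
    rw [Phi_coe]
    change max (rho M s s) |y - (1 - t) * y| < ε
    rw [rho_self]
    apply max_lt hε
    have : y - (1 - t) * y = t * y := by ring
    rw [this, abs_mul, abs_of_pos ht0]
    have h3 : t * (2 * prof M s) ≤ ε := by
      rw [le_div_iff₀ (by positivity)] at ht2
      exact ht2
    nlinarith [abs_nonneg y]
  rw [hcl.closure_eq] at this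
  exact this

/-- sign `κ = ±1` boundary curve, lifted to the completion -/
theorem exists_curve (M : ℝ) {κ : ℝ} (hκ : |κ| = 1) :
    ∃ g : ℝ → Completion (Strip M), Continuous g ∧
      ∀ s, Phi M (g s) = (Line.mk M s, κ * prof M s) := by
  have h : ∀ s, ∃ z, Phi M z = (Line.mk M s, κ * prof M s) := by
    intro s
    apply exists_Phi_eq
    rw [abs_mul, hκ, one_mul, abs_of_pos (prof_pos M s)]
  choose g hg using h
  refine ⟨g, ?_, hg⟩
  rw [(Phi_isometry M).isEmbedding.isInducing.continuous_iff]
  have : Phi M ∘ g = fun s => (Line.mk M s, κ * prof M s) := funext hg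
  rw [this]
  have := continuous_lineMk M
  have := continuous_prof M
  fun_prop

/-- The boundary component for the sign `κ`. -/
def Comp (M κ : ℝ) : Set (Completion (Strip M)) :=
  {z | (Phi M z).2 = κ * prof M (Phi M z).1.val}

theorem comp_subset {M κ : ℝ} (hκ : |κ| = 1) : Comp M κ ⊆ metricBoundary (Strip M) := by
  intro z hz
  rw [mem_metricBoundary_iff]
  rw [show (Phi M z).2 = κ * prof M (Phi M z).1.val from hz, abs_mul, hκ, one_mul,
    abs_of_pos (prof_pos M _)]

theorem comp_eq_range {M κ : ℝ} (g : ℝ → Completion (Strip M))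
    (hg : ∀ s, Phi M (g s) = (Line.mk M s, κ * prof M s)) : Comp M κ = range g := by
  ext z
  constructor
  · intro hz
    refine ⟨(Phi M z).1.val, ?_⟩
    apply (Phi_isometry M).injective
    rw [hg, Prod.ext_iff]
    exact ⟨rfl, (show (Phi M z).2 = κ * prof M (Phi M z).1.val from hz).symm⟩
  · rintro ⟨s, rfl⟩
    change (Phi M (g s)).2 = κ * prof M (Phi M (g s)).1.val
    rw [hg]
    rfl

theorem comp_isComponent (M : ℝ) {κ : ℝ} (hκ : κ = 1 ∨ κ = -1) :
    IsNontrivialBoundaryComponent (Comp M κ) := by
  have habs : |κ| = 1 := by rcases hκ with h | h <;> simp [h]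
  obtain ⟨g, hgc, hg⟩ := exists_curve M habs
  have hrange := comp_eq_range g hg
  have hpre : IsPreconnected (Comp M κ) := by
    rw [hrange]; exact isPreconnected_range hgc
  have hmem : ∀ s, g s ∈ Comp M κ := fun s => hrange ▸ mem_range_self s
  refine ⟨⟨g 0, hmem 0, g 1, hmem 1, ?_⟩, g 0, comp_subset habs (hmem 0), ?_⟩
  · intro h
    have := congrArg (fun z => (Phi M z).1.val) h
    simp only [hg] at this
    exact absurd this (by change ¬ ((0:ℝ) = 1); norm_num)
  · apply Subset.antisymm
    · exact hpre.subset_connectedComponentIn (hmem 0) (comp_subset habs)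
    · intro z hz
      -- the second coordinate has constant sign on the component
      by_contra hne
      have hzb : z ∈ metricBoundary (Strip M) := connectedComponentIn_subset _ _ hz
      have hc : IsPreconnected (connectedComponentIn (metricBoundary (Strip M)) (g 0)) :=
        isPreconnected_connectedComponentIn
      have hcont : Continuous fun w => κ * (Phi M w).2 := by
        have := (Phi_isometry M).continuous
        fun_prop
      have hg0 : g 0 ∈ connectedComponentIn (metricBoundary (Strip M)) (g 0) :=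
        mem_connectedComponentIn (comp_subset habs (hmem 0))
      have hκκ : κ * κ = 1 := by rcases hκ with h | h <;> simp [h]
      have h1 : 0 ≤ κ * (Phi M (g 0)).2 := by
        rw [hg]
        change 0 ≤ κ * (κ * prof M 0)
        rw [← mul_assoc, hκκ, one_mul]
        exact (prof_pos M 0).le
      have h2 : κ * (Phi M z).2 ≤ 0 := by
        have hb := (mem_metricBoundary_iff z).1 hzb
        have hp := prof_pos M (Phi M z).1.val
        have hne' : (Phi M z).2 ≠ κ * prof M (Phi M z).1.val := hne
        rcases hκ with h | h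
        · subst h
          rcases abs_cases (Phi M z).2 with h' | h'
          · exfalso; apply hne'; linarith
          · linarith
        · subst h
          rcases abs_cases (Phi M z).2 with h' | h'
          · linarith
          · exfalso; apply hne'; linarith
      obtain ⟨w, hw, hw0⟩ := hc.intermediate_value hz hg0 hcont.continuousOn ⟨h2, h1⟩
      have hwb : w ∈ metricBoundary (Strip M) := connectedComponentIn_subset _ _ hw
      have hb := (mem_metricBoundary_iff w).1 hwb
      have hp := prof_pos M (Phi M w).1.val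
      have hw0' : κ * (Phi M w).2 = 0 := hw0
      have : (Phi M w).2 = 0 := by
        rcases mul_eq_zero.1 hw0' with h | h
        · rw [h] at hκκ; norm_num at hκκ
        · exact h
      rw [this, abs_zero] at hb
      linarith

theorem dist_curve {M κ κ' : ℝ} (g g' : ℝ → Completion (Strip M))
    (hg : ∀ s, Phi M (g s) = (Line.mk M s, κ * prof M s))
    (hg' : ∀ s, Phi M (g' s) = (Line.mk M s, κ' * prof M s)) (s t : ℝ) :
    dist (g s) (g' t) = max (rho M s t) |κ * prof M s - κ' * prof M t| := by
  rw [← (Phi_isometry M).dist_eq, hg, hg']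
  rfl

theorem prof_left {M : ℝ} (hM : 1 ≤ M) {s : ℝ} (hs : s ≤ -M) : prof M s = M := by
  unfold prof
  rw [min_eq_left (by linarith), max_eq_right hM]

theorem prof_zero {M : ℝ} : prof M 0 = 1 := by
  unfold prof
  rw [neg_zero]
  exact max_eq_left ((min_le_right _ _).trans zero_le_one)

theorem ediam_comp_ge {M κ : ℝ} (hM : 1 ≤ M) (hκ : |κ| = 1) :
    ENNReal.ofReal M ≤ Metric.ediam (Comp M κ) := by
  obtain ⟨g, hgc, hg⟩ := exists_curve M hκ
  have hrange := comp_eq_range g hg
  have h1 : g (-M) ∈ Comp M κ := hrange ▸ mem_range_self _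
  have h2 : g (-(2 * M)) ∈ Comp M κ := hrange ▸ mem_range_self _
  refine le_trans ?_ (Metric.edist_le_ediam_of_mem h1 h2)
  rw [edist_dist]
  apply ENNReal.ofReal_le_ofReal
  rw [dist_curve g g hg hg]
  apply le_max_of_le_left
  unfold rho
  rw [prof_left hM (le_refl _), prof_left hM (by linarith), max_self]
  apply le_min _ le_rfl
  rw [show -M - -(2 * M) = M by ring]
  exact le_abs_self M

theorem strip_bounded (M : ℝ) (p q : Strip M) : dist p q ≤ 2 * max 1 M := by
  have hle : ∀ s, prof M s ≤ max 1 M := fun s => max_le_max le_rfl (min_le_left _ _)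
  have h1 := hle p.1.1.val
  have h2 := hle q.1.1.val
  have h0 : (0:ℝ) ≤ max 1 M := zero_le_one.trans (le_max_left _ _)
  rw [Strip.dist_eq]
  apply max_le
  · exact (rho_le_max M _ _).trans ((max_le h1 h2).trans (by linarith))
  · have h3 : |p.1.2| < prof M p.1.1.val := p.2
    have h4 : |q.1.2| < prof M q.1.1.val := q.2
    calc |p.1.2 - q.1.2| ≤ |p.1.2| + |q.1.2| := abs_sub _ _
      _ ≤ 2 * max 1 M := by linarith

theorem relDist_comp_le {M : ℝ} (hM : 1 ≤ M) :
    relDist (Comp M 1) (Comp M (-1)) ≤ 2 / ENNReal.ofReal M := by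
  obtain ⟨g, hgc, hg⟩ := exists_curve M (κ := 1) (by simp)
  obtain ⟨g', hgc', hg'⟩ := exists_curve M (κ := -1) (by simp)
  have h1 : g 0 ∈ Comp M 1 := (comp_eq_range g hg) ▸ mem_range_self _
  have h2 : g' 0 ∈ Comp M (-1) := (comp_eq_range g' hg') ▸ mem_range_self _
  unfold relDist
  apply ENNReal.div_le_div
  · refine (iInf₂_le (g 0) h1).trans ((iInf₂_le (g' 0) h2).trans ?_)
    rw [edist_dist, dist_curve g g' hg hg', rho_self, prof_zero]
    norm_num
  · exact le_min (ediam_comp_ge hM (by simp)) (ediam_comp_ge hM (by simp))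

end Pool.Agent.ALLC
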