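import Pool.Agent.Helper17_ALLC.Defs

/-!
# The truncated strip

Width profile `prof M`, the truncated line metric `rho M`, and the space `Strip M`.
-/

set_option autoImplicit false

open Set Metric UniformSpace Topology

open scoped ENNReal

namespace Pool.Agent.ALLC

/-- The half-width profile: `M` far to the left, `1` on the right. -/
noncomputable def prof (M s : ℝ) : ℝ := max 1 (min M (-s))

theorem one_le_prof (M s : ℝ) : 1 ≤ prof M s := le_max_left _ _

theorem prof_pos (M s : ℝ) : 0 < prof M s := lt_of_lt_of_le one_pos (one_le_prof M s)

theorem prof_anti (M : ℝ) {s t : ℝ} (h : s ≤ t) : prof M t ≤ prof M s := by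
  unfold prof
  exact max_le_max le_rfl (min_le_min le_rfl (by linarith))

theorem prof_lip (M s t : ℝ) : prof M s ≤ prof M t + |s - t| := by
  unfold prof
  apply max_le
  · have := abs_nonneg (s - t)
    have := le_max_left (1:ℝ) (min M (-t))
    linarith
  · rcases le_total M (-t) with h | h
    · have h1 : min M (-s) ≤ M := min_le_left _ _
      have h2 : min M (-t) = M := min_eq_left h
      have h3 := le_max_right (1:ℝ) (min M (-t))
      have := abs_nonneg (s - t)
      rw [h2] at *
      linarith
    · have h1 : min M (-s) ≤ -s := min_le_right _ _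
      have h2 : min M (-t) = -t := min_eq_right h
      have h3 := le_max_right (1:ℝ) (min M (-t))
      have := neg_le_abs (s - t)
      rw [h2] at *
      linarith

theorem continuous_prof (M : ℝ) : Continuous (prof M) := by
  unfold prof
  fun_prop

/-- The truncated distance on the line. -/
noncomputable def rho (M s t : ℝ) : ℝ := min |s - t| (max (prof M s) (prof M t))

theorem rho_comm (M s t : ℝ) : rho M s t = rho M t s := by
  unfold rho
  rw [abs_sub_comm, max_comm]

theorem rho_self (M s : ℝ) : rho M s s = 0 := by
  unfold rho
  have := prof_pos M s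
  simp only [sub_self, abs_zero, max_self]
  exact min_eq_left this.le

theorem rho_nonneg (M s t : ℝ) : 0 ≤ rho M s t :=
  le_min (abs_nonneg _) ((prof_pos M s).le.trans (le_max_left _ _))

theorem rho_le_abs (M s t : ℝ) : rho M s t ≤ |s - t| := min_le_left _ _

theorem rho_le_max (M s t : ℝ) : rho M s t ≤ max (prof M s) (prof M t) := min_le_right _ _

theorem eq_of_rho_eq_zero {M s t : ℝ} (h : rho M s t = 0) : s = t := by
  unfold rho at h
  rcases le_total |s - t| (max (prof M s) (prof M t)) with h1 | h1
  · rw [min_eq_left h1] at h
    linarith [abs_eq_zero.1 h]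
  · rw [min_eq_right h1] at h
    have := le_max_left (prof M s) (prof M t)
    have := prof_pos M s
    linarith

theorem rho_triangle (M s t u : ℝ) : rho M s u ≤ rho M s t + rho M t u := by
  have e1 : rho M s u ≤ |s - u| := min_le_left _ _
  have e2 : rho M s u ≤ max (prof M s) (prof M u) := min_le_right _ _
  have t1 : |s - u| ≤ |s - t| + |t - u| := abs_sub_le s t u
  have l1 := prof_lip M u t
  have l2 := prof_lip M s t
  have c1 : |u - t| = |t - u| := abs_sub_comm u t
  have p1 := prof_pos M s
  have p2 := prof_pos M t
  have p3 := prof_pos M u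
  have n1 := abs_nonneg (s - t)
  have n2 := abs_nonneg (t - u)
  have ms := le_max_left (prof M s) (prof M t)
  have ms' := le_max_right (prof M s) (prof M t)
  have mt := le_max_left (prof M t) (prof M u)
  have mt' := le_max_right (prof M t) (prof M u)
  rcases min_choice |s - t| (max (prof M s) (prof M t)) with h1 | h1 <;>
  rcases min_choice |t - u| (max (prof M t) (prof M u)) with h2 | h2
  · have : rho M s t = |s - t| := h1
    have : rho M t u = |t - u| := h2
    linarith
  · have h3 : rho M s t = |s - t| := h1
    have h4 : rho M t u = max (prof M t) (prof M u) := h2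
    refine e2.trans (max_le ?_ ?_) <;> linarith
  · have h3 : rho M s t = max (prof M s) (prof M t) := h1
    have h4 : rho M t u = |t - u| := h2
    refine e2.trans (max_le ?_ ?_) <;> linarith
  · have h3 : rho M s t = max (prof M s) (prof M t) := h1
    have h4 : rho M t u = max (prof M t) (prof M u) := h2
    refine e2.trans (max_le ?_ ?_) <;> linarith

/-- The line with the truncated metric `rho M`. -/
def Line (_M : ℝ) : Type := ℝ

/-- identity map from reals to `Line M` -/
def Line.mk (M : ℝ) (s : ℝ) : Line M := s
/-- identity map from `Line M` to the reals -/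
def Line.val {M : ℝ} (s : Line M) : ℝ := s

noncomputable instance (M : ℝ) : MetricSpace (Line M) where
  dist s t := rho M s.val t.val
  dist_self s := rho_self M _
  dist_comm s t := rho_comm M _ _
  dist_triangle s t u := rho_triangle M _ _ _
  eq_of_dist_eq_zero h := eq_of_rho_eq_zero h

theorem Line.dist_eq {M : ℝ} (s t : Line M) : dist s t = rho M s.val t.val := rfl

theorem Line.uniformContinuous_mk (M : ℝ) : UniformContinuous (Line.mk M) := by
  rw [Metric.uniformContinuous_iff]
  intro ε hε
  refine ⟨ε, hε, fun {a b} h => ?_⟩
  exact lt_of_le_of_lt (rho_le_abs M a b) h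

theorem Line.uniformContinuous_val (M : ℝ) : UniformContinuous (Line.val (M := M)) := by
  rw [Metric.uniformContinuous_iff]
  intro ε hε
  refine ⟨min ε 1, lt_min hε one_pos, fun {a b} h => ?_⟩
  have h1 : rho M a.val b.val < ε := lt_of_lt_of_le h (min_le_left _ _)
  have h2 : rho M a.val b.val < 1 := lt_of_lt_of_le h (min_le_right _ _)
  unfold rho at h1 h2
  rcases min_choice |a.val - b.val| (max (prof M a.val) (prof M b.val)) with h3 | h3
  · rw [h3] at h1
    exact h1
  · rw [h3] at h2
    have := le_max_left (prof M a.val) (prof M b.val)
    have := one_le_prof M a.val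
    linarith

/-- The uniform equivalence between the real line and `Line M`. -/
def Line.uequiv (M : ℝ) : ℝ ≃ᵤ Line M where
  toFun := Line.mk M
  invFun := Line.val
  left_inv _ := rfl
  right_inv _ := rfl
  uniformContinuous_toFun := Line.uniformContinuous_mk M
  uniformContinuous_invFun := Line.uniformContinuous_val M

instance (M : ℝ) : CompleteSpace (Line M) :=
  (UniformEquiv.completeSpace_iff (Line.uequiv M)).1 inferInstance

/-- The strip: pairs `(s,y)` with `|y| < prof M s`, with metric
`max (rho M s s') |y - y'|`. -/
abbrev Strip (M : ℝ) : Type := {p : Line M × ℝ // |p.2| < prof M p.1.val}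

theorem Strip.dist_eq {M : ℝ} (p q : Strip M) :
    dist p q = max (rho M p.1.1.val q.1.1.val) |p.1.2 - q.1.2| := rfl

end Pool.Agent.ALLC
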